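import Pool.Agent.Y107.SDDefs

/-!
# Varieties whose cohomology is a direct factor of the cohomology of another variety: definitions
-/

set_option autoImplicit false

open CategoryTheory AlgebraicGeometry

universe u v w

namespace Pool.Agent.Q73.CR

open Pool.Agent.H914 Pool.Agent.H914.VarClass Pool.Agent.H914.VarClass.Obj Pool.Agent.W492.BB
  Pool.Agent.W550.Corr Pool.Agent.TH133 Pool.Agent.Y107

variable {k : Type u} [Field k] {𝒱 : VarClass k} {C : TheoryData.{u, v, 0} 𝒱 ℚ} {K : Type w}
  [Field K] (H : WeilTheoryData.{u, v, w} C K)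

/-- The correspondences `α` from `X` to `Z` and `β` from `Z` to `X`, of degree zero, make `H^i(X)` a
direct factor of `H^i(Z)` for all `i` with `S i`: `β_* α_*` is the identity on `H^i(X)`. -/
structure CohomologyFactor {X Z : 𝒱.Obj} (S : ℕ → Prop) (α : C.A (X.prod Z))
    (β : C.A (Z.prod X)) : Prop where
  deg_left : C.Deg X.dim α
  deg_right : C.Deg Z.dim β
  id : ∀ i : ℕ, S i → ∀ a : H.A X, H.Deg i a → H.act (H.cl β) (H.act (H.cl α) a) = a

/-- Homologically trivial self-correspondences of degree zero of `Z` are nilpotent (for instance if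
the Chow motive of `Z` is finite-dimensional in the sense of Kimura). -/
def HomNilpotent (Z : 𝒱.Obj) : Prop :=
  ∀ γ : C.A (Z.prod Z), C.Deg Z.dim γ → H.cl γ = 0 → ∃ n, corPow C γ n = 0

variable (C)

/-- The correspondence `α` makes the Chow motive of `X` a direct factor of the Chow motive of `Z`: it
has a left inverse of degree zero. -/
def MotiveFactor {X Z : 𝒱.Obj} (α : C.A (X.prod Z)) : Prop :=
  ∃ β : C.A (Z.prod X), C.Deg Z.dim β ∧ C.comp α β = dg C X

/-- Correspondences do not raise the weights of the decomposition `π` of `Z`: all morphisms of Chow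
motives `h^a(Z) → h^b(Z)`, `a < b`, are zero. -/
def NotRaising {Z : 𝒱.Obj} (π : ℕ → C.A (Z.prod Z)) : Prop :=
  ∀ γ : C.A (Z.prod Z), C.Deg Z.dim γ → ∀ a b : ℕ, a < b →
    C.comp (C.comp (π a) γ) (π b) = 0

end Pool.Agent.Q73.CR
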