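import Mathlib

/-!
# Idempotents modulo a nil ideal and their partial inverses
-/

set_option autoImplicit false

namespace Pool.Agent.Q73.CR

open Polynomial

/-- For an element `t` which is idempotent modulo a nil ideal there is `h`, commuting with `t`, with
`h t h = h` and the same image as `t`. -/
lemma exists_partial_inverse {R S : Type*} [Ring R] [Ring S] (f : R →+* S)
    (hf : ∀ x, f x = 0 → IsNilpotent x) {t : R} (ht : f t * f t = f t) :
    ∃ h : R, h * t = t * h ∧ h * t * h = h ∧ f h = f t := by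
  have hn : IsNilpotent (t * (1 - t)) := hf _ (by rw [map_mul, map_sub, map_one, mul_sub, mul_one,
    ht, sub_self])
  obtain ⟨n, hn⟩ := hn
  have hn1 : (t * (1 - t)) ^ (n + 1) = 0 := by rw [pow_succ, hn, zero_mul]
  have hco : IsCoprime (X ^ (n + 1) : ℤ[X]) ((1 - X) ^ (n + 1)) := by
    apply IsCoprime.pow
    exact ⟨1, 1, by ring⟩
  obtain ⟨a, b, hab⟩ := hco
  -- the polynomials
  have key1 : (a * X ^ n * (a * X ^ (n + 1))) * X = a * X ^ (n + 1) - a * b * (X * (1 - X)) ^ (n + 1) := by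
    have h1 : b * (1 - X) ^ (n + 1) = 1 - a * X ^ (n + 1) := eq_sub_of_add_eq' hab
    calc (a * X ^ n * (a * X ^ (n + 1))) * X = (a * X ^ (n + 1)) * (a * X ^ (n + 1)) := by ring
      _ = a * X ^ (n + 1) - (a * X ^ (n + 1)) * (1 - a * X ^ (n + 1)) := by ring
      _ = a * X ^ (n + 1) - (a * X ^ (n + 1)) * (b * (1 - X) ^ (n + 1)) := by rw [h1]
      _ = _ := by rw [mul_pow]; ring
  let φ : ℤ[X] →ₐ[ℤ] R := aeval t
  have hφX : φ X = t := aeval_X t
  have hkill : φ ((X * (1 - X)) ^ (n + 1)) = 0 := by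
    rw [map_pow, map_mul, map_sub, map_one, hφX]
    exact hn1
  have e1 : φ (a * X ^ n * (a * X ^ (n + 1))) * t = φ (a * X ^ (n + 1)) := by
    calc φ (a * X ^ n * (a * X ^ (n + 1))) * t = φ (a * X ^ n * (a * X ^ (n + 1)) * X) := by
          rw [map_mul φ _ X, hφX]
      _ = φ (a * X ^ (n + 1)) := by
          rw [key1, map_sub, map_mul φ (a * b), hkill, mul_zero, sub_zero]
  have e2 : φ (a * X ^ (n + 1)) * φ (a * X ^ (n + 1)) = φ (a * X ^ (n + 1)) := by
    calc φ (a * X ^ (n + 1)) * φ (a * X ^ (n + 1))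
        = φ (a * X ^ n * (a * X ^ (n + 1)) * X) := by
          rw [← map_mul]; congr 1; ring
      _ = φ (a * X ^ (n + 1)) := by
          rw [key1, map_sub, map_mul φ (a * b), hkill, mul_zero, sub_zero]
  refine ⟨φ (a * X ^ n * (a * X ^ (n + 1))), ?_, ?_, ?_⟩
  · rw [← hφX, ← map_mul, ← map_mul, mul_comm]
  · rw [e1, ← map_mul]
    calc φ (a * X ^ (n + 1) * (a * X ^ n * (a * X ^ (n + 1))))
        = φ (a * X ^ n) * (φ (a * X ^ (n + 1)) * φ (a * X ^ (n + 1))) := by
          rw [← map_mul, ← map_mul]; congr 1; ring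
      _ = _ := by rw [e2, ← map_mul]
  · -- the image
    let g : ℤ[X] →+* S := f.comp (φ : ℤ[X] →+* R)
    have hg : ∀ P, f (φ P) = g P := fun P => rfl
    have hgX : g X = f t := by rw [← hg, hφX]
    have h0 : g ((1 - X) * X) = 0 := by
      rw [map_mul, map_sub, map_one, hgX, sub_mul, one_mul, ht, sub_self]
    have h1 : g (a * X ^ (n + 1)) = f t := by
      have h2 : g ((a * X ^ (n + 1) + b * (1 - X) ^ (n + 1)) * X) = f t := by
        rw [hab, one_mul, hgX]
      have h3 : (a * X ^ (n + 1) + b * (1 - X) ^ (n + 1)) * X =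
          a * X ^ (n + 1) + (b * (1 - X) ^ n - a * X ^ n) * ((1 - X) * X) := by ring
      rw [h3, map_add, map_mul g (b * (1 - X) ^ n - a * X ^ n), h0, mul_zero, add_zero] at h2
      exact h2
    rw [hg, map_mul, h1, ← hgX, ← map_mul, hgX, ← h1]
    congr 1
    ring

end Pool.Agent.Q73.CR
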