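import Pool.Agent.Q69.Murre.Mot
import Pool.Agent.Q73.LS.Cover
import Pool.Agent.Q73.CR.Defs
import Pool.Agent.Q73.CR.Ring

/-!
# Projectors on `X` from a finite-dimensional `Z` whose cohomology contains the cohomology of `X`
-/

set_option autoImplicit false

open CategoryTheory AlgebraicGeometry

universe u v w

namespace Pool.Agent.Q73.CR

open Pool.Agent.H914 Pool.Agent.H914.VarClass Pool.Agent.H914.VarClass.Obj Pool.Agent.W492.BB
  Pool.Agent.W550.Corr Pool.Agent.TH133 Pool.Agent.Y107 Pool.Agent.Q69.Murre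

set_option linter.unusedSectionVars false

variable {k : Type u} [Field k] {𝒱 : VarClass k}

section chow

variable {C : TheoryData.{u, v, 0} 𝒱 ℚ} [hC : IsChowProj C] {X Y Z : 𝒱.Obj}

include hC

/-- `β z α` -/
noncomputable def tr (α : C.A (X.prod Z)) (β : C.A (Z.prod X)) (z : Cor C Z) : Cor C X :=
  (C.comp (C.comp α (z : C.A (Z.prod Z))) β)

/-- `α β` -/
noncomputable def tt (α : C.A (X.prod Z)) (β : C.A (Z.prod X)) : Cor C Z := (C.comp β α)

/-- `α x β` -/
noncomputable def up (α : C.A (X.prod Z)) (β : C.A (Z.prod X)) (x : Cor C X) : Cor C Z :=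
  (C.comp (C.comp β (x : C.A (X.prod X))) α)

variable (α : C.A (X.prod Z)) (β : C.A (Z.prod X))

lemma tr_mul (z w : Cor C Z) : tr α β z * tr α β w = tr α β (z * tt α β * w) := by
  have h1 : (z * tt α β * w : Cor C Z) = (C.comp (w : C.A (Z.prod Z)) (C.comp (C.comp β α) (z : C.A (Z.prod Z)))) := by
    rw [cor_mul, cor_mul]; rfl
  rw [cor_mul]
  simp only [tr, h1, comp_assoc C]

lemma tr_zero' : tr α β (0 : Cor C Z) = 0 := by
  have h1 : (C.comp α (0 : C.A (Z.prod Z))) = 0 := comp_zero C _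
  have h2 : tr α β (0 : Cor C Z) = (C.comp (C.comp α (0 : C.A (Z.prod Z))) β) := rfl
  rw [h2, h1, zero_comp]
  rfl

lemma tr_sum {ι : Type*} (s : Finset ι) (z : ι → Cor C Z) :
    tr α β (∑ i ∈ s, z i) = ∑ i ∈ s, tr α β (z i) := by
  have h1 : (C.comp α (∑ i ∈ s, z i : Cor C Z)) = ∑ i ∈ s, (C.comp α (z i : C.A (Z.prod Z))) :=
    comp_sum C s _ _
  have h2 : tr α β (∑ i ∈ s, z i) = (C.comp (C.comp α (∑ i ∈ s, z i : Cor C Z)) β) := rfl
  rw [h2, h1, sum_comp]
  rfl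

lemma up_tr (z : Cor C Z) : up α β (tr α β z) = tt α β * z * tt α β := by
  have h1 : (tt α β * z * tt α β : Cor C Z) = (C.comp (C.comp β α) (C.comp (z : C.A (Z.prod Z)) (C.comp β α))) := by
    rw [cor_mul, cor_mul]; rfl
  rw [h1]
  simp only [up, tr, comp_assoc C]

variable {α β}

lemma comp_mem0 {W : 𝒱.Obj} {a : C.A (X.prod Z)} {b : C.A (Z.prod W)} (ha : C.Deg X.dim a)
    (hb : C.Deg Z.dim b) : C.Deg X.dim (C.comp a b) := by
  have h1 : a ∈ C.gr (X.prod Z) ((X.dim : ℤ) + 0) := by rw [add_zero]; exact ha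
  have h2 : b ∈ C.gr (Z.prod W) ((Z.dim : ℤ) + 0) := by rw [add_zero]; exact hb
  have h3 := comp_mem C h1 h2
  rwa [add_zero, add_zero] at h3

lemma tr_mem (hα : C.Deg X.dim α) (hβ : C.Deg Z.dim β) {z : Cor C Z} (hz : z ∈ cor0 C Z) :
    tr α β z ∈ cor0 C X := comp_mem0 (comp_mem0 hα hz) hβ

lemma tt_mem (hα : C.Deg X.dim α) (hβ : C.Deg Z.dim β) : tt α β ∈ cor0 C Z := comp_mem0 hβ hα

lemma up_mem (hα : C.Deg X.dim α) (hβ : C.Deg Z.dim β) {x : Cor C X} (hx : x ∈ cor0 C X) :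
    up α β x ∈ cor0 C Z := comp_mem0 (comp_mem0 hβ hx) hα

end chow

section weil

variable {C : TheoryData.{u, v, 0} 𝒱 ℚ} [hC : IsChowProj C] {K : Type w} [Field K]
  {H : WeilTheoryData.{u, v, w} C K} [hH : IsWeilProj H] {X Y Z : 𝒱.Obj}

include hC hH

lemma act_mem00 {a : C.A (X.prod Z)} (ha : C.Deg X.dim a) {m : ℤ} {x : H.A X}
    (hx : x ∈ H.gr X m) : H.act (H.cl a) x ∈ H.gr Z m := by
  have h2 : a ∈ C.gr (X.prod Z) (X.dim + 0) := by rw [add_zero]; exact ha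
  have := actH_mem H h2 hx
  rwa [mul_zero, add_zero] at this

lemma homNilpotent_iff : HomNilpotent H Z ↔ ∀ γ : Cor C Z, HT H γ → IsNilpotent γ := by
  constructor
  · intro h γ hγ
    exact (Pool.Agent.Q73.LS.nilpotent_iff γ).1 (h γ hγ.1 hγ.2)
  · intro h γ h1 h2
    exact (Pool.Agent.Q73.LS.nilpotent_iff (X := Z) γ).2 (h γ ⟨h1, h2⟩)

variable {α : C.A (X.prod Z)} {β : C.A (Z.prod X)}

lemma actH_tr (z : Cor C Z) (a : H.A X) :
    actH C X H (tr α β z) a = H.act (H.cl β) (actH C Z H z (H.act (H.cl α) a)) := by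
  rw [actH_apply, actH_apply]
  have h1 : H.cl (X := X.prod X) (tr α β z) = H.cl (C.comp (C.comp α (z : C.A (Z.prod Z))) β) := rfl
  rw [h1, actH_comp, actH_comp]

lemma actH_tt (b : H.A Z) :
    actH C Z H (tt α β) b = H.act (H.cl α) (H.act (H.cl β) b) := by
  rw [actH_apply]
  have h1 : H.cl (X := Z.prod Z) (tt α β) = H.cl (C.comp β α) := rfl
  rw [h1, actH_comp]

lemma actH_up (x : Cor C X) (b : H.A Z) :
    actH C Z H (up α β x) b = H.act (H.cl α) (actH C X H x (H.act (H.cl β) b)) := by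
  rw [actH_apply, actH_apply]
  have h1 : H.cl (X := Z.prod Z) (up α β x) = H.cl (C.comp (C.comp β (x : C.A (X.prod X))) α) := rfl
  rw [h1, actH_comp, actH_comp]

lemma HT.up (hα : C.Deg X.dim α) (hβ : C.Deg Z.dim β) {x : Cor C X} (hx : HT H x) :
    HT H (up α β x) := by
  refine HT.of (up_mem hα hβ hx.mem) ?_
  ext b
  rw [actH_up, hx.act, LinearMap.zero_apply, LinearMap.zero_apply]
  exact H.act_map_zero _

end weil

end Pool.Agent.Q73.CR
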