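import Pool.Agent.Q73.CR.Phantom
import Pool.Agent.Q69.Murre.Mot

/-!
# Murre's conjectures for direct factors of the motive of a finite-dimensional variety
-/

set_option autoImplicit false

open CategoryTheory AlgebraicGeometry

universe u v w

namespace Pool.Agent.Q73.CR

open Pool.Agent.H914 Pool.Agent.H914.VarClass Pool.Agent.H914.VarClass.Obj Pool.Agent.W492.BB
  Pool.Agent.W550.Corr Pool.Agent.TH133 Pool.Agent.Y107 Pool.Agent.Q69.Murre

set_option linter.unusedSectionVars false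

variable {k : Type u} [Field k] {𝒱 : VarClass k}

variable {C : TheoryData.{u, v, 0} 𝒱 ℚ} [hC : IsChowProj C] {K : Type w} [Field K]
  {H : WeilTheoryData.{u, v, w} C K} [hH : IsWeilProj H] {X Y Z : 𝒱.Obj}

include hC hH

variable {α : C.A (X.prod Z)} {β : C.A (Z.prod X)}

omit hH in
lemma act_mem01 {a : C.A (X.prod Z)} (ha : C.Deg X.dim a) {i : ℤ} {x : C.A X}
    (hx : x ∈ C.gr X i) : C.act a x ∈ C.gr Z i := by
  have h1 : a ∈ C.gr (X.prod Z) ((X.dim : ℤ) + 0) := by rw [add_zero]; exact ha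
  have := act_mem' C h1 hx
  rwa [add_zero] at this

omit hH in
lemma fixed_nilpotent {ν : Cor C Z} (hν : IsNilpotent ν) {y : C.A Z}
    (h : actC C Z ν y = y) : y = 0 := by
  obtain ⟨n, hn⟩ := hν
  have h1 : ∀ m : ℕ, actC C Z (ν ^ m) y = y := by
    intro m
    induction m with
    | zero => rw [pow_zero, map_one]; rfl
    | succ m ih =>
      rw [pow_succ, map_mul, Module.End.mul_apply, h, ih]
  rw [← h1 n, hn, map_zero]
  rfl

omit hH in
lemma act_up (hfac : (C.comp α β) = dg C X) (x : Cor C X) (z : C.A X) :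
    C.act (uc (up α β x)) (C.act α z) = C.act α (C.act (uc x) z) := by
  rw [← C.act_comp, ← C.act_comp]
  have h1 : (C.comp α (uc (up α β x))) = (C.comp α (C.comp (C.comp β (uc x)) α)) := rfl
  have h2 : (C.comp α (C.comp (C.comp β (uc x)) α)) = (C.comp (C.comp (C.comp α β) (uc x)) α) := by
    simp only [comp_assoc C]
  rw [h1, h2, hfac, dg_comp]

lemma kill (hα : C.Deg X.dim α) (hβ : C.Deg Z.dim β) (hfac : (C.comp α β) = dg C X)
    (hn : ∀ γ : Cor C Z, HT H γ → IsNilpotent γ) {π : ℕ → Cor C Z} (hπ : IsCK H Z π)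
    {P : ℕ → Cor C X} (h : IsCK H X P) {a : ℕ} {z : C.A X}
    (h0 : C.act (uc (π a)) (C.act α (C.act (uc (P a)) z)) = 0) : C.act (uc (P a)) z = 0 := by
  obtain ⟨e, he⟩ : ∃ e : Cor C Z, e = up α β (P a) := ⟨_, rfl⟩
  have hem : e ∈ cor0 C Z := by rw [he]; exact up_mem hα hβ (ck_mem h a)
  have hν : HT H (e * (1 - π a) * e) := by
    refine HT.of ((cor0 C Z).mul_mem ((cor0 C Z).mul_mem hem ((cor0 C Z).sub_mem
      (cor0 C Z).one_mem (ck_mem hπ a))) hem) ?_
    apply ext_gr H
    intro m x hx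
    rw [LinearMap.zero_apply, map_mul, map_mul, Module.End.mul_apply, Module.End.mul_apply]
    have h1 : actH C Z H e x ∈ H.gr Z m := actH_mem0 hem hx
    by_cases hm : m = a
    · have h2 : actH C Z H (1 - π a) (actH C Z H e x) = 0 := by
        rw [map_sub, map_one, LinearMap.sub_apply, hπ.actH_eq' _ _ h1, if_pos hm,
          Module.End.one_apply, sub_self]
      rw [h2, map_zero]
    · have h2 : actH C Z H e x = 0 := by
        have h3 : H.act (H.cl β) x ∈ H.gr X m := act_mem00 hβ hx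
        rw [he, actH_up, h.actH_eq' _ _ h3, if_neg hm]
        exact H.act_map_zero _
      rw [h2, map_zero, map_zero]
  obtain ⟨y, hy⟩ : ∃ y, y = C.act α (C.act (uc (P a)) z) := ⟨_, rfl⟩
  have hey : actC C Z e y = y := by
    have h1 : actC C Z e y = C.act (uc (up α β (P a))) (C.act α (C.act (uc (P a)) z)) := by
      rw [he, hy]; rfl
    have h2 : (C.comp (uc (P a)) (uc (P a))) = uc (P a) := h.idem a
    rw [h1, act_up hfac, ← C.act_comp (uc (P a)) (uc (P a)), h2, hy]
  have h3 : actC C Z (π a) y = 0 := by rw [hy]; exact h0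
  have h4 : actC C Z (e * (1 - π a) * e) y = y := by
    rw [map_mul, map_mul, map_sub, map_one, Module.End.mul_apply, Module.End.mul_apply, hey,
      LinearMap.sub_apply, h3, sub_zero, Module.End.one_apply, hey]
  have h5 : y = 0 := fixed_nilpotent (hn _ hν) h4
  have h6 : C.act (uc (P a)) z = C.act β y := by
    rw [hy, ← C.act_comp, hfac, act_dg]
  rw [h6, h5, C.act_map_zero]

/-- **(B) for direct factors.** -/
theorem murreB_of_factor (hα : C.Deg X.dim α) (hβ : C.Deg Z.dim β) (hfac : (C.comp α β) = dg C X)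
    (hn : ∀ γ : Cor C Z, HT H γ → IsNilpotent γ) {π : ℕ → C.A (Z.prod Z)} (hπ : IsCK H Z π)
    (h0 : ∀ i : ℕ, ckFil C π i 0 = C.gr Z i) (h1 : ∀ i : ℕ, ckFil C π i (i + 1) = ⊥) :
    MurreB0 H X ∧ MurreB1 H X := by
  have hπ' : IsCK H Z (fun i => cr (π i)) := hπ
  constructor
  · rw [murreB0_iff]
    intro P hP i j x hx hj
    refine kill hα hβ hfac hn hπ' (isCK_cr hP) (a := j) ?_
    have h2 : C.act α (C.act (uc (cr (P j))) x) ∈ C.gr Z i := act_mem01 hα (act_mem0 C (hP.deg j) hx)
    rw [← h0 i, hπ.mem_ckFil] at h2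
    exact h2.2 j (by omega)
  · rw [murreB1_iff]
    intro P hP i j x hx hj
    refine kill hα hβ hfac hn hπ' (isCK_cr hP) (a := j) ?_
    have h2 : C.act α (C.act (uc (cr (P j))) x) ∈ C.gr Z i := act_mem01 hα (act_mem0 C (hP.deg j) hx)
    exact zero_of_ckFil hπ (h1 i) j hj _ h2

/-- **(D) for direct factors.** -/
theorem murreD_of_factor (hα : C.Deg X.dim α) (hβ : C.Deg Z.dim β) (hfac : (C.comp α β) = dg C X)
    (hn : ∀ γ : Cor C Z, HT H γ → IsNilpotent γ) {π : ℕ → C.A (Z.prod Z)} (hπ : IsCK H Z π)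
    (hD : ∀ (i : ℕ) (x : C.A Z), x ∈ ckFil C π i 1 ↔ C.Deg i x ∧ H.cl x = 0) :
    MurreD H X := by
  have hπ' : IsCK H Z (fun i => cr (π i)) := hπ
  intro P hP i x
  rw [hP.mem_ckFil]
  constructor
  · rintro ⟨hx, hx'⟩
    refine ⟨hx, ?_⟩
    have h1 := hP.act_self (2 * i) (H.cl x) (by exact_mod_cast H.cl_mem hx)
    rw [← cl_act H, hx' (2 * i) (by omega), map_zero] at h1
    exact h1.symm
  · rintro ⟨hx, h0⟩
    refine ⟨hx, fun j hj => ?_⟩
    refine kill hα hβ hfac hn hπ' (isCK_cr hP) (a := j) ?_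
    have h2 : C.act α (C.act (uc (cr (P j))) x) ∈ C.gr Z i := act_mem01 hα (act_mem0 C (hP.deg j) hx)
    have h3 : H.cl (C.act α (C.act (uc (cr (P j))) x)) = 0 := by
      rw [cl_act H, cl_act H, h0, H.act_map_zero, H.act_map_zero]
    have h4 := (hD i _).2 ⟨h2, h3⟩
    rw [hπ.mem_ckFil] at h4
    exact h4.2 j (by omega)

lemma isCKOf_up (hα : C.Deg X.dim α) (hβ : C.Deg Z.dim β) (hfac : (C.comp α β) = dg C X)
    (hn : ∀ γ : Cor C Z, HT H γ → IsNilpotent γ) {P : ℕ → Cor C X} (h : IsCK H X P) :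
    IsCKOf H (C.comp β α) (toZ fun i => uc (up α β (P i))) := by
  have hact : ∀ (i : ℕ) (m : ℤ) (a : H.A Z), a ∈ H.gr Z m →
      actH C Z H (up α β (P i)) a = if m = i then H.act (H.cl α) (H.act (H.cl β) a) else 0 := by
    intro i m a ha
    have h3 : H.act (H.cl β) a ∈ H.gr X m := act_mem00 hβ ha
    rw [actH_up, h.actH_eq' _ _ h3]
    split_ifs
    · rfl
    · exact H.act_map_zero _
  have hout : ∀ i, 2 * Z.dim < i → up α β (P i) = 0 := by
    intro i hi
    have h1 : HT H (up α β (P i)) := by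
      refine HT.of (up_mem hα hβ (ck_mem h i)) ?_
      apply ext_gr H
      intro m a ha
      rw [hact i m a ha, LinearMap.zero_apply]
      split_ifs with hm
      · rw [gr_top (H := H) (by omega), Submodule.mem_bot] at ha
        rw [ha, H.act_map_zero, H.act_map_zero]
      · rfl
    apply zero_of_mul_left (hn _ h1)
    rw [← up_mul hfac, ck_idem h]
  refine isCKOf_toZ (fun i => up_mem hα hβ (ck_mem h i)) hout (fun i j => ?_) ?_ ?_
  · change up α β (P i) * up α β (P j) = if i = j then up α β (P i) else 0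
    rw [← up_mul hfac, h.mul_eq]
    split_ifs
    · rfl
    · change (C.comp (C.comp β (0 : C.A (X.prod X))) α) = 0
      rw [comp_zero, zero_comp]
  · have h1 : ∀ i, 2 * X.dim < i → up α β (P i) = 0 := by
      intro i hi
      have h2 : P i = 0 := h.out i hi
      rw [h2]
      change (C.comp (C.comp β (0 : C.A (X.prod X))) α) = 0
      rw [comp_zero, zero_comp]
    obtain ⟨N, hN⟩ : ∃ N, N = max (2 * Z.dim + 1) (2 * X.dim + 1) := ⟨_, rfl⟩
    have e1 : ∑ i ∈ Finset.range (2 * Z.dim + 1), up α β (P i) =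
        ∑ i ∈ Finset.range N, up α β (P i) := by
      apply Finset.sum_subset
      · intro i; rw [Finset.mem_range, Finset.mem_range, hN]; omega
      · intro i _ hi; rw [Finset.mem_range] at hi; exact hout i (by omega)
    have e2 : ∑ i ∈ Finset.range (2 * X.dim + 1), up α β (P i) =
        ∑ i ∈ Finset.range N, up α β (P i) := by
      apply Finset.sum_subset
      · intro i; rw [Finset.mem_range, Finset.mem_range, hN]; omega
      · intro i _ hi; rw [Finset.mem_range] at hi; exact h1 i (by omega)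
    have e3 : ∑ i ∈ Finset.range (2 * X.dim + 1), up α β (P i) = (C.comp β α) := by
      have h3 : (C.comp (C.comp β (∑ i ∈ Finset.range (2 * X.dim + 1), uc (P i))) α) =
          ∑ i ∈ Finset.range (2 * X.dim + 1), (C.comp (C.comp β (uc (P i))) α) := by
        rw [comp_sum, sum_comp]
      have h4 : (∑ i ∈ Finset.range (2 * X.dim + 1), uc (P i)) = dg C X := h.sum
      rw [h4, comp_dg] at h3
      exact h3.symm
    exact e1.trans (e2.symm.trans e3)
  · intro i m a ha
    change actH C Z H (up α β (P i)) a = _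
    rw [hact i m a ha]
    split_ifs
    · have h1 : actH C Z H (cr (C.comp β α)) a = actH C Z H (tt α β) a := rfl
      rw [h1, actH_tt]
    · rfl

/-- **(C) for direct factors.** -/
theorem murreC_of_factor (hα : C.Deg X.dim α) (hβ : C.Deg Z.dim β) (hfac : (C.comp α β) = dg C X)
    (hn : ∀ γ : Cor C Z, HT H γ → IsNilpotent γ) {π : ℕ → C.A (Z.prod Z)} (hπ : IsCK H Z π)
    (hCZ : MurreC H Z) : MurreC H X := by
  have hpp : cr (C.comp β α) * cr (C.comp β α) = cr (C.comp β α) := by
    change (C.comp (C.comp β α) (C.comp β α)) = (C.comp β α)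
    have h1 : (C.comp (C.comp β α) (C.comp β α)) = (C.comp β (C.comp (C.comp α β) α)) := by simp only [comp_assoc C]
    rw [h1, hfac, dg_comp]
  obtain ⟨r, hr, hcomb⟩ := exists_combine hn (isCK_cr hπ) (p := (C.comp β α)) (tt_mem hα hβ) hpp
  obtain ⟨Q, hQ⟩ : ∃ Q : (ℕ → C.A (X.prod X)) → ℕ → C.A (Z.prod Z), ∀ P, Q P = fun n : ℕ =>
      uc (cr ((toZ fun i => uc (up α β (cr (P i)))) (n : ℤ)) + r n) := ⟨_, fun _ => rfl⟩
  have hck : ∀ P, IsCK H X P → IsCK H Z (Q P) := fun P hP => by
    rw [hQ]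
    exact hcomb _ (isCKOf_up hα hβ hfac hn (isCK_cr hP))
  -- the projectors on the image of `α`
  have key : ∀ (P : ℕ → C.A (X.prod X)) (m : ℕ) (x : C.A X),
      C.act (Q P m) (C.act α x) = C.act α (C.act (P m) x) := by
    intro P m x
    have h1 : (C.comp α (C.comp β α)) = α := by
      rw [← comp_assoc C, hfac, dg_comp]
    have h2 : actC C Z (r m) (C.act α x) = 0 := by
      have h3 : C.act α x = actC C Z (cr (C.comp β α)) (C.act α x) := by
        change C.act α x = C.act (C.comp β α) (C.act α x)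
        rw [← C.act_comp, h1]
      rw [h3, ← Module.End.mul_apply, ← map_mul, hr, map_zero, LinearMap.zero_apply]
    have h4 : C.act (Q P m) (C.act α x) =
        actC C Z (cr ((toZ fun i => uc (up α β (cr (P i)))) (m : ℤ)) + r m) (C.act α x) := by
      rw [hQ]; rfl
    rw [h4, map_add, LinearMap.add_apply, h2, add_zero, toZ_natCast]
    exact act_up hfac (cr (P m)) x
  have main : ∀ P P', IsCK H X P → IsCK H X P' → ∀ i n : ℕ, ckFil C P i n ≤ ckFil C P' i n := by
    intro P P' hP hP' i n x hx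
    rw [hP.mem_ckFil] at hx
    have h1 : C.act α x ∈ ckFil C (Q P) i n := by
      rw [(hck P hP).mem_ckFil]
      refine ⟨act_mem01 hα hx.1, fun m hm => ?_⟩
      rw [key, hx.2 m hm, C.act_map_zero]
    rw [hCZ _ _ (hck P hP) (hck P' hP'), (hck P' hP').mem_ckFil] at h1
    rw [hP'.mem_ckFil]
    refine ⟨hx.1, fun m hm => ?_⟩
    have h2 : C.act α (C.act (P' m) x) = 0 := by rw [← key, h1.2 m hm]
    have h3 : C.act (P' m) x = C.act β (C.act α (C.act (P' m) x)) := by
      rw [← C.act_comp, hfac, act_dg]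
    rw [h3, h2, C.act_map_zero]
  intro P P' hP hP' i n
  exact le_antisymm (main P P' hP hP' i n) (main P' P hP' hP i n)

end Pool.Agent.Q73.CR
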