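import Pool.Agent.Q73.CR.Base

/-!
# Projectors on `X` from a finite-dimensional `Z` whose cohomology contains the cohomology of `X`
-/

set_option autoImplicit false

open CategoryTheory AlgebraicGeometry

universe u v w

namespace Pool.Agent.Q73.CR

open Pool.Agent.H914 Pool.Agent.H914.VarClass Pool.Agent.H914.VarClass.Obj Pool.Agent.W492.BB
  Pool.Agent.W550.Corr Pool.Agent.TH133 Pool.Agent.Y107 Pool.Agent.Q69.Murre

set_option linter.unusedSectionVars false

variable {k : Type u} [Field k] {𝒱 : VarClass k}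

section weil

variable {C : TheoryData.{u, v, 0} 𝒱 ℚ} [hC : IsChowProj C] {K : Type w} [Field K]
  {H : WeilTheoryData.{u, v, w} C K} [hH : IsWeilProj H] {X Y Z : 𝒱.Obj}

include hC hH

variable {α : C.A (X.prod Z)} {β : C.A (Z.prod X)}

/-- idempotent and nilpotent elements are zero -/
lemma zero_of_idem {q : Cor C X} (h : q * q = q) (hn : IsNilpotent q) : q = 0 := by
  obtain ⟨n, hn⟩ := hn
  have h1 : ∀ m : ℕ, q ^ (m + 1) = q := by
    intro m
    induction m with
    | zero => rw [zero_add, pow_one]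
    | succ m ih => rw [pow_succ, ih, h]
  rw [← h1 n, pow_succ, hn, zero_mul]

open Classical in
/-- the sum of the projectors of `Z` in the degrees with `S` -/
noncomputable def cut (S : ℕ → Prop) (π : ℕ → C.A (Z.prod Z)) : C.A (Z.prod Z) :=
  ∑ i ∈ (Finset.range (2 * Z.dim + 1)).filter S, π i

/-- the condition on integers -/
def onZ (S : ℕ → Prop) (m : ℤ) : Prop := ∃ i : ℕ, m = i ∧ S i

open Classical in
lemma act_cut (S : ℕ → Prop) {π : ℕ → C.A (Z.prod Z)} (hπ : IsCK H Z π) {m : ℤ} {z : H.A Z}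
    (hz : z ∈ H.gr Z m) : H.act (H.cl (cut S π)) z = if onZ S m then z else 0 := by
  have h1 : H.act (H.cl (cut S π)) z =
      ∑ i ∈ (Finset.range (2 * Z.dim + 1)).filter S, H.act (H.cl (π i)) z := by
    rw [cut, map_sum, act_sum]
  have h2 : ∀ i ∈ (Finset.range (2 * Z.dim + 1)).filter S, H.act (H.cl (π i)) z =
      if m = (i : ℤ) then z else 0 := by
    intro i _
    split_ifs with h
    · subst h
      exact hπ.act_self i z hz
    · exact hπ.act_ne i m z h hz
  rw [h1, Finset.sum_congr rfl h2]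
  split_ifs with h
  · obtain ⟨i, rfl, hi⟩ := h
    by_cases hi2 : i ≤ 2 * Z.dim
    · rw [Finset.sum_eq_single_of_mem i (Finset.mem_filter.2 ⟨Finset.mem_range.2 (by omega), hi⟩)]
      · rw [if_pos rfl]
      · intro j _ hj
        rw [if_neg]
        intro e
        exact hj (by exact_mod_cast e.symm)
    · rw [gr_top (H := H) (by omega), Submodule.mem_bot] at hz
      rw [hz]
      exact Finset.sum_eq_zero fun j _ => by split_ifs <;> rfl
  · refine Finset.sum_eq_zero fun j hj => ?_
    rw [if_neg]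
    intro e
    exact h ⟨j, e, (Finset.mem_filter.1 hj).2⟩

/-- **The engine.** -/
theorem exists_part {S : ℕ → Prop} (hF : CohomologyFactor H S α β)
    (hn : ∀ γ : Cor C Z, HT H γ → IsNilpotent γ) {π : ℕ → C.A (Z.prod Z)} (hπ : IsCK H Z π) :
    ∃ b : ℕ → C.A (Z.prod X), (∀ i, C.Deg Z.dim (b i)) ∧
      (∀ i, 2 * X.dim < i ∨ ¬ S i → (cr (C.comp α (b i)) : Cor C X) = 0) ∧
      (∀ i j, cr (C.comp α (b i)) * cr (C.comp α (b j)) = if i = j then cr (C.comp α (b i)) else 0) ∧
      (∀ (i : ℕ) (m : ℤ) (a : H.A X), a ∈ H.gr X m → S i →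
        actH C X H (cr (C.comp α (b i))) a = if m = i then a else 0) := by
  classical
  obtain ⟨β₁, hβ₁⟩ : ∃ β₁, β₁ = (C.comp (cut S π) β) := ⟨_, rfl⟩
  have hcut : C.Deg Z.dim (cut S π) := by
    rw [cut]
    exact Submodule.sum_mem _ fun i _ => hπ.deg i
  have hβd : C.Deg Z.dim β₁ := by rw [hβ₁]; exact comp_mem0 hcut hF.deg_right
  have hαd : C.Deg X.dim α := hF.deg_left
  have z0 : ∀ (V W : 𝒱.Obj) (Γ : H.A (V.prod W)), H.act Γ (0 : H.A V) = 0 :=
    fun V W Γ => H.act_map_zero Γ
  have hact1 : ∀ {m : ℤ} {z : H.A Z}, z ∈ H.gr Z m →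
      H.act (H.cl β₁) z = if onZ S m then H.act (H.cl β) z else 0 := by
    intro m z hz
    rw [hβ₁, actH_comp, act_cut S hπ hz]
    split_ifs
    · rfl
    · exact z0 _ _ _
  have key1 : ∀ {m : ℤ} {a : H.A X}, a ∈ H.gr X m →
      H.act (H.cl β₁) (H.act (H.cl α) a) = if onZ S m then a else 0 := by
    intro m a ha
    rw [hact1 (act_mem00 hαd ha)]
    split_ifs with h
    · obtain ⟨i, rfl, hi⟩ := h
      exact hF.id i hi a ha
    · rfl
  let f : (cor0 C Z) →+* Module.End K (H.A Z) :=
    (actH C Z H).comp (cor0 C Z).val.toRingHom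
  have hf : ∀ x : cor0 C Z, f x = actH C Z H x.1 := fun x => rfl
  have hker : ∀ x : cor0 C Z, f x = 0 → IsNilpotent x := by
    intro x hx
    obtain ⟨n, hn⟩ := hn x.1 (HT.of x.2 hx)
    exact ⟨n, Subtype.ext hn⟩
  let t' : cor0 C Z := ⟨tt α β₁, tt_mem hαd hβd⟩
  have htt : f t' * f t' = f t' := by
    apply ext_gr H
    intro m z hz
    rw [Module.End.mul_apply, hf]
    change actH C Z H (tt α β₁) (actH C Z H (tt α β₁) z) = actH C Z H (tt α β₁) z
    rw [actH_tt, actH_tt]
    have hx : H.act (H.cl β₁) z ∈ H.gr X m := act_mem00 hβd hz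
    rw [key1 hx]
    split_ifs with h
    · rfl
    · rw [hact1 hz, if_neg h, z0]
  obtain ⟨h', hh1, hh2, hh3⟩ := exists_partial_inverse f hker htt
  obtain ⟨h, hh⟩ : ∃ h : Cor C Z, h = h'.1 := ⟨_, rfl⟩
  obtain ⟨t, ht⟩ : ∃ t : Cor C Z, t = tt α β₁ := ⟨_, rfl⟩
  have hmem : h ∈ cor0 C Z := hh ▸ h'.2
  have htmem : t ∈ cor0 C Z := ht ▸ tt_mem hαd hβd
  have e1 : h * t = t * h := by rw [hh, ht]; exact congrArg Subtype.val hh1
  have e2 : h * t * h = h := by rw [hh, ht]; exact congrArg Subtype.val hh2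
  have e3 : actH C Z H h = actH C Z H t := by rw [hh, ht]; exact hh3
  have e4 : h * t * (h * t) = h * t := by rw [← mul_assoc, e2]
  obtain ⟨q, hq1, hq2, hq3, hq4, hq5⟩ := exists_ck_factor hn hπ
    ((cor0 C Z).mul_mem hmem htmem) e4
  have hq6 : ∀ j, (h * t) * q j = q j := by
    intro j
    rw [← hq4, Finset.sum_mul]
    by_cases hj : j ∈ Finset.range (2 * Z.dim + 1)
    · rw [Finset.sum_eq_single_of_mem j hj, hq3, if_pos rfl]
      intro i _ hij
      rw [hq3, if_neg hij]
    · rw [hq2 j (by rw [Finset.mem_range] at hj; omega)]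
      exact Finset.sum_eq_zero fun i _ => mul_zero _
  have hq7 : ∀ j, q j * (h * t) = q j := by
    intro j
    rw [← hq4, Finset.mul_sum]
    by_cases hj : j ∈ Finset.range (2 * Z.dim + 1)
    · rw [Finset.sum_eq_single_of_mem j hj, hq3, if_pos rfl]
      intro i _ hij
      rw [hq3, if_neg (Ne.symm hij)]
    · rw [hq2 j (by rw [Finset.mem_range] at hj; omega)]
      exact Finset.sum_eq_zero fun i _ => zero_mul _
  have hb : ∀ i, (cr (C.comp α (C.comp (C.comp (uc h) (uc (q i))) β₁)) : Cor C X) = tr α β₁ (q i * h) := by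
    intro i
    have h1 : (q i * h : Cor C Z) = (C.comp (uc h) (uc (q i))) := by rw [cor_mul]; rfl
    rw [h1]
    exact (comp_assoc C α (C.comp (uc h) (uc (q i))) β₁).symm
  have hmul : ∀ i j, tr α β₁ (q i * h) * tr α β₁ (q j * h) =
      if i = j then tr α β₁ (q i * h) else 0 := by
    intro i j
    rw [tr_mul, ← ht]
    have h1 : q i * h * t * (q j * h) = (q i * q j) * h := by
      calc q i * h * t * (q j * h) = q i * (h * t * q j) * h := by simp only [mul_assoc]
        _ = _ := by rw [hq6]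
    rw [h1, hq3]
    split_ifs
    · rfl
    · rw [zero_mul, tr_zero']
  have hact : ∀ (i : ℕ) {m : ℤ} {a : H.A X}, a ∈ H.gr X m →
      actH C X H (tr α β₁ (q i * h)) a = if m = i ∧ onZ S m then a else 0 := by
    intro i m a ha
    have hαa : H.act (H.cl α) a ∈ H.gr Z m := act_mem00 hαd ha
    have ht1 : actH C Z H t (H.act (H.cl α) a) =
        if onZ S m then H.act (H.cl α) a else 0 := by
      rw [ht, actH_tt, key1 ha]
      split_ifs
      · rfl
      · exact z0 _ _ _
    rw [actH_tr, map_mul, Module.End.mul_apply, e3, ht1]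
    by_cases hS : onZ S m
    · rw [if_pos hS, hq5 i m _ hαa]
      by_cases hm : m = i
      · rw [if_pos hm, if_pos ⟨hm, hS⟩, map_mul, Module.End.mul_apply, ht1, if_pos hS, e3, ht1,
          if_pos hS, key1 ha, if_pos hS]
      · rw [if_neg hm, if_neg (fun h => hm h.1)]
        exact z0 _ _ _
    · rw [if_neg hS, if_neg (fun h => hS h.2), map_zero]
      exact z0 _ _ _
  refine ⟨fun i => (C.comp (C.comp (uc h) (uc (q i))) β₁), fun i => ?_, fun i hi => ?_, fun i j => ?_,
    fun i m a ha hS => ?_⟩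
  · exact comp_mem0 (comp_mem0 hmem (hq1 i)) hβd
  · rw [hb i]
    have hHT : HT H (tr α β₁ (q i * h)) := by
      refine HT.of (tr_mem hαd hβd ((cor0 C Z).mul_mem (hq1 i) hmem)) ?_
      apply ext_gr H
      intro m a ha
      rw [hact i ha, LinearMap.zero_apply]
      split_ifs with hm
      · obtain ⟨hm1, i', hm2, hm3⟩ := hm
        have hii : i' = i := by
          have : (i' : ℤ) = i := by rw [← hm2, hm1]
          exact_mod_cast this
        subst hii
        rcases hi with hi | hi
        · rw [hm1, gr_top (H := H) (by omega), Submodule.mem_bot] at ha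
          exact ha
        · exact absurd hm3 hi
      · rfl
    have h1 := HT.up hαd hβd hHT
    rw [up_tr, ← ht] at h1
    have h2 := h1.mul_left hmem
    have h3 : h * (t * (q i * h) * t) = q i := by
      calc h * (t * (q i * h) * t) = h * t * q i * (h * t) := by simp only [mul_assoc]
        _ = q i := by rw [hq6, hq7]
    rw [h3] at h2
    have h4 : q i = 0 := zero_of_idem (H := H) (by rw [hq3, if_pos rfl]) (hn _ h2)
    rw [h4, zero_mul, tr_zero']
  · rw [hb i, hb j]
    exact hmul i j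
  · rw [hb i, hact i ha]
    by_cases hm : m = i
    · rw [if_pos hm, if_pos ⟨hm, i, hm, hS⟩]
    · rw [if_neg hm, if_neg (fun h => hm h.1)]

end weil

end Pool.Agent.Q73.CR
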