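import Pool.Agent.Q73.CR.Engine
import Pool.Agent.Q69.Murre.Zero

/-!
# Murre's conjectures for varieties whose cohomology is a direct factor of the cohomology of `Z`
-/

set_option autoImplicit false

open CategoryTheory AlgebraicGeometry

universe u v w

namespace Pool.Agent.Q73.CR

open Pool.Agent.H914 Pool.Agent.H914.VarClass Pool.Agent.H914.VarClass.Obj Pool.Agent.W492.BB
  Pool.Agent.W550.Corr Pool.Agent.TH133 Pool.Agent.Y107 Pool.Agent.Q69.Murre

set_option linter.unusedSectionVars false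

variable {k : Type u} [Field k] {𝒱 : VarClass k}

section chow

variable {C : TheoryData.{u, v, 0} 𝒱 ℚ} [hC : IsChowProj C] {X Y Z T : 𝒱.Obj}

include hC

lemma push_prodMap (ι : T ⟶ X) (w : C.A (T.prod Y)) :
    C.push (prodMap ι (𝟙 Y)) w = (C.comp (C.cograph ι) w) := by
  have h1 : tp C (C.push (prodMap ι (𝟙 Y)) w) = (C.comp (tp C w) (C.graph ι)) := by
    rw [comp_eq_extR, extR_graph, tp_eq_push, tp_eq_push, ← C.push_comp, ← C.push_comp]
    have e : prodMap ι (𝟙 Y) ≫ sw X Y = sw T Y ≫ prodMap (𝟙 Y) ι := by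
      apply prod_ext <;> simp [sw]
    rw [e]
  have h2 := congrArg (tp C) h1
  rw [tp_tp, tp_comp C (ch_comm C), tp_tp, Pool.Agent.Q73.LS.tp_graph'] at h2
  exact h2

/-- A correspondence `ε` with `ε ∘ ε = ε` killing the Chow groups of `X` is zero, by the theorem of
Bloch and Srinivas. -/
theorem zero_of_kills (hBS : BlochSrinivas C) {ε : C.A (X.prod X)} (hε : C.Deg X.dim ε)
    (hεε : (C.comp ε ε) = ε) (h0 : ∀ (i : ℤ) (x : C.A X), x ∈ C.gr X i → C.act ε x = 0) : ε = 0 := by
  have main : ∀ (n : ℕ) (T : 𝒱.Obj), T.dim = n → ∀ (e : ℤ) (Γ : C.A (T.prod X)),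
      Γ ∈ C.gr (T.prod X) ((T.dim : ℤ) + e) → (C.comp Γ ε) = 0 := by
    intro n
    induction n using Nat.strong_induction_on with
    | _ n ih =>
      intro T hT e Γ hΓ
      have hε' : ε ∈ C.gr (X.prod X) ((X.dim : ℤ) + 0) := by rw [add_zero]; exact hε
      have hdeg : (C.comp Γ ε) ∈ C.gr (T.prod X) ((T.dim : ℤ) + e) := by
        have := comp_mem C hΓ hε'
        rwa [add_zero] at this
      have hkill : ∀ x : C.A T, C.Deg T.dim x → C.act (C.comp Γ ε) x = 0 := by
        intro x hx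
        rw [C.act_comp]
        exact h0 _ _ (act_mem' C hΓ hx)
      have hspan := hBS T X _ (C.comp Γ ε) hdeg hkill
      have h3 : Submodule.span ℚ {c | ∃ (T' : 𝒱.Obj) (ι : T' ⟶ T) (w : C.A (T'.prod X)),
          T'.dim + 1 = T.dim ∧ C.Deg ((T.dim : ℤ) + e - 1) w ∧
            c = C.down (prodMap ι (𝟙 X)) w} ≤
          LinearMap.ker ((compL C (X := T) (Y := X) (Z := X)).flip ε) := by
        rw [Submodule.span_le]
        rintro _ ⟨T', ι, w, hT', hw, rfl⟩
        rw [SetLike.mem_coe, LinearMap.mem_ker, LinearMap.flip_apply]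
        change (C.comp (C.push (prodMap ι (𝟙 X)) w) ε) = 0
        rw [push_prodMap, comp_assoc C]
        have hw' : w ∈ C.gr (T'.prod X) ((T'.dim : ℤ) + ((T.dim : ℤ) + e - 1 - T'.dim)) := by
          have e1 : (T'.dim : ℤ) + ((T.dim : ℤ) + e - 1 - T'.dim) = (T.dim : ℤ) + e - 1 := by ring
          rw [e1]; exact hw
        rw [ih T'.dim (by omega) T' rfl _ w hw', comp_zero]
      have h4 := h3 hspan
      rw [LinearMap.mem_ker, LinearMap.flip_apply] at h4
      have h5 : (C.comp (C.comp Γ ε) ε) = 0 := h4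
      rw [comp_assoc C, hεε] at h5
      exact h5
  have h1 := main X.dim X rfl 0 (dg C X) (by rw [add_zero]; exact dg_mem C X)
  rwa [dg_comp] at h1

end chow

section weil

variable {C : TheoryData.{u, v, 0} 𝒱 ℚ} [hC : IsChowProj C] {K : Type w} [Field K]
  {H : WeilTheoryData.{u, v, w} C K} [hH : IsWeilProj H] {X Y Z : 𝒱.Obj}

include hC hH

open Classical in
/-- replacing the `m`-th projector by the complement of the others -/
noncomputable def put (m : ℕ) (p : ℕ → Cor C X) (i : ℕ) : Cor C X :=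
  if i = m then 1 - ∑ j ∈ (Finset.range (2 * X.dim + 1)).erase m, p j else p i

omit hH in
lemma put_ne {m : ℕ} {p : ℕ → Cor C X} {i : ℕ} (h : i ≠ m) : put m p i = p i := by
  rw [put, if_neg h]

omit hH in
lemma put_self {m : ℕ} {p : ℕ → Cor C X} : put m p m =
    1 - ∑ j ∈ (Finset.range (2 * X.dim + 1)).erase m, p j := by
  rw [put, if_pos rfl]

lemma sum_mul_of {p : ℕ → Cor C X} (hmul : ∀ i j, p i * p j = if i = j then p i else 0)
    (s : Finset ℕ) (i : ℕ) :
    (∑ j ∈ s, p j) * p i = (if i ∈ s then p i else 0) ∧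
      p i * (∑ j ∈ s, p j) = if i ∈ s then p i else 0 := by
  rw [Finset.sum_mul, Finset.mul_sum]
  constructor
  · rw [Finset.sum_congr rfl fun j _ => hmul j i]
    have h1 : ∀ j ∈ s, (if j = i then p j else 0) = if i = j then p i else 0 := by
      intro j _
      by_cases h : i = j
      · subst h; simp
      · rw [if_neg h, if_neg (Ne.symm h)]
    rw [Finset.sum_congr rfl h1, Finset.sum_ite_eq]
  · rw [Finset.sum_congr rfl fun j _ => hmul i j, Finset.sum_ite_eq]

lemma isCK_put {m : ℕ} (hm : m ≤ 2 * X.dim) {p : ℕ → Cor C X} (hmem : ∀ i, p i ∈ cor0 C X)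
    (hout : ∀ i, 2 * X.dim < i → p i = 0)
    (hmul : ∀ i j, p i * p j = if i = j then p i else 0)
    (hact : ∀ (i : ℕ) (m' : ℤ) (a : H.A X), i ≠ m → a ∈ H.gr X m' →
      actH C X H (p i) a = if m' = i then a else 0) : IsCK H X (put m p) := by
  set s := (Finset.range (2 * X.dim + 1)).erase m with hs
  have hs' : ∀ i, i ∈ s ↔ i ≠ m ∧ i < 2 * X.dim + 1 := fun i => by
    rw [hs, Finset.mem_erase, Finset.mem_range]
  refine isCK_of ?_ ?_ ?_ ?_ ?_
  · intro i
    by_cases hi : i = m
    · subst hi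
      rw [put_self]
      exact (cor0 C X).sub_mem (cor0 C X).one_mem ((cor0 C X).sum_mem fun j _ => hmem j)
    · rw [put_ne hi]
      exact hmem i
  · intro i hi
    rw [put_ne (by omega)]
    exact hout i hi
  · have h1 : ∀ i, i ≠ m → p i * (∑ j ∈ s, p j) = p i := by
      intro i hi
      rw [(sum_mul_of (H := H) hmul s i).2]
      split_ifs with h
      · rfl
      · rw [hout i (by rw [hs'] at h; omega)]
    have h2 : ∀ i, i ≠ m → (∑ j ∈ s, p j) * p i = p i := by
      intro i hi
      rw [(sum_mul_of (H := H) hmul s i).1]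
      split_ifs with h
      · rfl
      · rw [hout i (by rw [hs'] at h; omega)]
    have h3 : (∑ j ∈ s, p j) * (∑ j ∈ s, p j) = ∑ j ∈ s, p j := by
      rw [Finset.sum_mul]
      exact Finset.sum_congr rfl fun i hi => h1 i ((hs' i).1 hi).1
    intro i j
    by_cases hi : i = m
    · subst hi
      by_cases hj : j = i
      · subst hj
        rw [if_pos rfl, put_self, ← hs, sub_mul, one_mul, mul_sub, mul_one, h3, sub_self, sub_zero]
      · rw [if_neg (Ne.symm hj), put_self, put_ne hj, ← hs, sub_mul, one_mul, h2 j hj, sub_self]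
    · by_cases hj : j = m
      · subst hj
        rw [if_neg hi, put_self, put_ne hi, ← hs, mul_sub, mul_one, h1 i hi, sub_self]
      · rw [put_ne hi, put_ne hj, hmul]
  · have hmr : m ∈ Finset.range (2 * X.dim + 1) := Finset.mem_range.2 (by omega)
    rw [← Finset.add_sum_erase _ _ hmr, put_self, Finset.sum_congr rfl fun j hj =>
      put_ne (Finset.mem_erase.1 hj).1, sub_add_cancel]
  · intro i m' a ha
    by_cases hi : i = m
    · subst hi
      have h1 : actH C X H (∑ j ∈ s, p j) a = ∑ j ∈ s, if m' = (j : ℤ) then a else 0 := by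
        rw [map_sum, LinearMap.sum_apply]
        exact Finset.sum_congr rfl fun j hj => hact j m' a ((hs' j).1 hj).1 ha
      rw [put_self, ← hs, map_sub, map_one, LinearMap.sub_apply, h1, Module.End.one_apply]
      by_cases hm1 : m' = i
      · rw [if_pos hm1, Finset.sum_eq_zero, sub_zero]
        intro j hj
        rw [if_neg]
        intro e
        exact ((hs' j).1 hj).1 (by omega)
      · rw [if_neg hm1]
        by_cases ha0 : a = 0
        · rw [ha0]; simp
        have h0 := nonneg_of_mem H ha ha0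
        have h2 : m' ≤ 2 * X.dim := by
          by_contra h3
          rw [gr_top (H := H) (by omega)] at ha
          exact ha0 ((Submodule.mem_bot _).1 ha)
        obtain ⟨m'', rfl⟩ := Int.eq_ofNat_of_zero_le h0
        rw [Finset.sum_eq_single m'']
        · rw [if_pos rfl, sub_self]
        · intro j _ hj
          rw [if_neg (by intro e; exact hj (by exact_mod_cast e.symm))]
        · intro hj
          exact absurd ((hs' m'').2 ⟨by exact_mod_cast hm1, by exact_mod_cast (by omega : (m'' : ℤ) < 2 * X.dim + 1)⟩) hj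
    · rw [put_ne hi]
      exact hact i m' a hi ha

variable {α : C.A (X.prod Z)} {β : C.A (Z.prod X)}

/-- **Existence of Chow-Kunneth decompositions.** -/
theorem exists_ck_of_factor {m : ℕ} (hm : m ≤ 2 * X.dim)
    (hF : CohomologyFactor H (fun i => i ≠ m) α β) (hZ : HomNilpotent H Z)
    {π : ℕ → C.A (Z.prod Z)} (hπ : IsCK H Z π) :
    ∃ p, IsCK H X p ∧ ∀ i, i ≠ m → ∃ b : C.A (Z.prod X), C.Deg Z.dim b ∧ p i = (C.comp α b) := by
  obtain ⟨b, h1, h2, h3, h4⟩ := exists_part hF (homNilpotent_iff.1 hZ) hπ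
  refine ⟨put m fun i => cr (C.comp α (b i)), isCK_put (H := H) hm (fun i => ?_)
    (fun i hi => h2 i (Or.inl hi)) h3 (fun i m' a hi ha => h4 i m' a ha hi), fun i hi => ?_⟩
  · exact comp_mem0 hF.deg_left (h1 i)
  · exact ⟨b i, h1 i, put_ne hi⟩

/-- the phantom remainder -/
theorem exists_phantom (hF : CohomologyFactor H (fun _ => True) α β) (hZ : HomNilpotent H Z)
    {π : ℕ → C.A (Z.prod Z)} (hπ : IsCK H Z π) :
    ∃ (p : ℕ → Cor C X) (ε : Cor C X) (b : ℕ → C.A (Z.prod X)),
      (∀ i, p i = cr (C.comp α (b i))) ∧ (∀ i, C.Deg Z.dim (b i)) ∧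
      HT H ε ∧ ε * ε = ε ∧ (∀ i, p i * ε = 0) ∧ (∀ i, ε * p i = 0) ∧
      (∀ m ≤ 2 * X.dim, IsCK H X (put m p)) ∧ (∀ m ≤ 2 * X.dim, put m p m = p m + ε) ∧
      (ε = 1 - ∑ j ∈ Finset.range (2 * X.dim + 1), p j) := by
  obtain ⟨b, h1, h2, h3, h4⟩ := exists_part hF (homNilpotent_iff.1 hZ) hπ
  obtain ⟨p, hp⟩ : ∃ p : ℕ → Cor C X, p = fun i => cr (C.comp α (b i)) := ⟨_, rfl⟩
  have hp' : ∀ i, p i = cr (C.comp α (b i)) := fun i => by rw [hp]
  have hmem : ∀ i, p i ∈ cor0 C X := fun i => by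
    rw [hp' i]; exact comp_mem0 hF.deg_left (h1 i)
  have hout : ∀ i, 2 * X.dim < i → p i = 0 := fun i hi => by rw [hp' i]; exact h2 i (Or.inl hi)
  have hmul : ∀ i j, p i * p j = if i = j then p i else 0 := fun i j => by
    rw [hp]; exact h3 i j
  have hck : ∀ m ≤ 2 * X.dim, IsCK H X (put m p) := fun m hm =>
    isCK_put (H := H) hm hmem hout hmul fun i m' a _ ha => by rw [hp' i]; exact h4 i m' a ha trivial
  set s := Finset.range (2 * X.dim + 1) with hs
  have hsum : ∀ i, (∑ j ∈ s, p j) * p i = p i ∧ p i * (∑ j ∈ s, p j) = p i := by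
    intro i
    obtain ⟨e1, e2⟩ := sum_mul_of (H := H) hmul s i
    rw [e1, e2]
    by_cases hi : i ∈ s
    · rw [if_pos hi]; exact ⟨rfl, rfl⟩
    · rw [if_neg hi, hout i (by rw [hs, Finset.mem_range] at hi; omega)]; exact ⟨rfl, rfl⟩
  have hss : (∑ j ∈ s, p j) * (∑ j ∈ s, p j) = ∑ j ∈ s, p j := by
    rw [Finset.sum_mul]
    exact Finset.sum_congr rfl fun i _ => (hsum i).2
  refine ⟨p, 1 - ∑ j ∈ s, p j, b, hp', h1, ?_, ?_, ?_, ?_, hck, ?_, rfl⟩
  · refine HT.of ((cor0 C X).sub_mem (cor0 C X).one_mem ((cor0 C X).sum_mem fun j _ => hmem j)) ?_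
    have h0 := (hck 0 (by omega)).sum_eq
    apply ext_gr H
    intro m a ha
    rw [map_sub, map_one, map_sum, LinearMap.sub_apply, LinearMap.sum_apply, LinearMap.zero_apply,
      Module.End.one_apply]
    have h5 : ∀ j ∈ s, actH C X H (p j) a = actH C X H (put 0 p j) a := by
      intro j _
      rw [hp' j, h4 j m a ha trivial, (hck 0 (by omega)).actH_eq' j m ha]
    rw [Finset.sum_congr rfl h5, ← LinearMap.sum_apply, ← map_sum, h0, map_one,
      Module.End.one_apply, sub_self]
  · rw [sub_mul, one_mul, mul_sub, mul_one, hss, sub_self, sub_zero]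
  · intro i
    rw [mul_sub, mul_one, (hsum i).2, sub_self]
  · intro i
    rw [sub_mul, one_mul, (hsum i).1, sub_self]
  · intro m hm
    have hmr : m ∈ s := by rw [hs]; exact Finset.mem_range.2 (by omega)
    rw [put_self, ← Finset.add_sum_erase _ _ hmr]
    abel

end weil

end Pool.Agent.Q73.CR
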