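import Pool.Agent.Q73.CR.Main
import Pool.Agent.Q69.Murre.Main

/-!
# Homologically trivial idempotents and the conjectures of Murre
-/

set_option autoImplicit false

open CategoryTheory AlgebraicGeometry

universe u v w

namespace Pool.Agent.Q73.CR

open Pool.Agent.H914 Pool.Agent.H914.VarClass Pool.Agent.H914.VarClass.Obj Pool.Agent.W492.BB
  Pool.Agent.W550.Corr Pool.Agent.TH133 Pool.Agent.Y107 Pool.Agent.Q69.Murre

set_option linter.unusedSectionVars false

lemma zero_of_mul_left {R : Type*} [Ring R] {x y : R} (hx : IsNilpotent x) (h : y = x * y) :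
    y = 0 := by
  obtain ⟨n, hn⟩ := hx
  have h1 : ∀ m : ℕ, y = x ^ m * y := by
    intro m
    induction m with
    | zero => rw [pow_zero, one_mul]
    | succ m ih => rw [pow_succ, mul_assoc, ← h]; exact ih
  rw [h1 n, hn, zero_mul]

lemma zero_of_mul_right {R : Type*} [Ring R] {x y : R} (hx : IsNilpotent x) (h : y = y * x) :
    y = 0 := by
  obtain ⟨n, hn⟩ := hx
  have h1 : ∀ m : ℕ, y = y * x ^ m := by
    intro m
    induction m with
    | zero => rw [pow_zero, mul_one]
    | succ m ih => rw [pow_succ', ← mul_assoc, ← h]; exact ih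
  rw [h1 n, hn, mul_zero]

variable {k : Type u} [Field k] {𝒱 : VarClass k}

section chow

variable {C : TheoryData.{u, v, 0} 𝒱 ℚ} [hC : IsChowProj C] {X Y Z : 𝒱.Obj}

include hC

variable {α : C.A (X.prod Z)} {β : C.A (Z.prod X)}

lemma tr_up (h : (C.comp α β) = dg C X) (x : Cor C X) : tr α β (up α β x) = x := by
  have h1 : tr α β (up α β x) = (C.comp (C.comp α (C.comp (C.comp β (x : C.A (X.prod X))) α)) β) := rfl
  have h2 : (C.comp (C.comp α (C.comp (C.comp β (x : C.A (X.prod X))) α)) β) =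
      (C.comp (C.comp (C.comp α β) (x : C.A (X.prod X))) (C.comp α β)) := by
    simp only [comp_assoc C]
  rw [h1, h2, h]
  have h3 : (C.comp (C.comp (dg C X) (x : C.A (X.prod X))) (dg C X)) = x := by
    rw [dg_comp, comp_dg]
  exact h3

lemma up_mul (h : (C.comp α β) = dg C X) (x y : Cor C X) : up α β (x * y) = up α β x * up α β y := by
  have h1 : up α β (x * y) = (C.comp (C.comp β (C.comp (y : C.A (X.prod X)) (x : C.A (X.prod X)))) α) := rfl
  have h2 : up α β x * up α β y =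
      (C.comp (C.comp (C.comp β (y : C.A (X.prod X))) α) (C.comp (C.comp β (x : C.A (X.prod X))) α)) := rfl
  have h3 : (C.comp (C.comp (C.comp β (y : C.A (X.prod X))) α) (C.comp (C.comp β (x : C.A (X.prod X))) α)) =
      (C.comp (C.comp (C.comp β (y : C.A (X.prod X))) (C.comp (C.comp α β) (x : C.A (X.prod X)))) α) := by
    simp only [comp_assoc C]
  rw [h1, h2, h3, h, dg_comp]
  simp only [comp_assoc C]

end chow

section weil

variable {C : TheoryData.{u, v, 0} 𝒱 ℚ} [hC : IsChowProj C] {K : Type w} [Field K]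
  {H : WeilTheoryData.{u, v, w} C K} [hH : IsWeilProj H] {X Y Z : 𝒱.Obj}

include hC hH

variable {α : C.A (X.prod Z)} {β : C.A (Z.prod X)}

lemma nilpotent_of_factor (hα : C.Deg X.dim α) (hβ : C.Deg Z.dim β) (hfac : (C.comp α β) = dg C X)
    (hn : ∀ γ : Cor C Z, HT H γ → IsNilpotent γ) {γ : Cor C X} (hγ : HT H γ) :
    IsNilpotent γ := by
  obtain ⟨n, h⟩ := hn _ (HT.up hα hβ hγ)
  have h1 : ∀ m : ℕ, up α β (γ ^ (m + 1)) = (up α β γ) ^ (m + 1) := by
    intro m
    induction m with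
    | zero => rw [zero_add, pow_one, pow_one]
    | succ m ih => rw [pow_succ, up_mul hfac, ih, ← pow_succ]
  refine ⟨n + 1, ?_⟩
  rw [← tr_up hfac (γ ^ (n + 1)), h1, pow_succ, h, zero_mul, tr_zero']

lemma ht_diag (hα : C.Deg X.dim α) (hβ : C.Deg Z.dim β) {π : ℕ → Cor C Z} (hπ : IsCK H Z π)
    {P : ℕ → Cor C X} (h : IsCK H X P) {a c : ℕ} (hc : c ≠ a) :
    HT H (π c * up α β (P a) * π c) := by
  refine HT.of ((cor0 C Z).mul_mem ((cor0 C Z).mul_mem (ck_mem hπ c)
    (up_mem hα hβ (ck_mem h a))) (ck_mem hπ c)) ?_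
  apply ext_gr H
  intro m x hx
  rw [LinearMap.zero_apply, map_mul, map_mul, Module.End.mul_apply, Module.End.mul_apply,
    hπ.actH_eq' _ _ hx]
  split_ifs with hm
  · have h1 : H.act (H.cl β) x ∈ H.gr X m := act_mem00 hβ hx
    have h2 : actH C X H (P a) (H.act (H.cl β) x) = 0 := by
      rw [h.actH_eq' _ _ h1, if_neg (by omega)]
    rw [actH_up, h2]
    have h3 : H.act (H.cl α) (0 : H.A X) = 0 := H.act_map_zero _
    rw [h3, map_zero]
  · rw [map_zero, map_zero]

lemma left_zero (hn : ∀ γ : Cor C Z, HT H γ → IsNilpotent γ) {π : ℕ → Cor C Z}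
    (hπ : IsCK H Z π) (hNR : NR π π) {e : Cor C Z} (he : e ∈ cor0 C Z) (hee : e * e = e) {a : ℕ}
    (h0 : ∀ c, c ≠ a → HT H (π c * e * π c)) : ∀ c, a < c → π c * e = 0 := by
  have main : ∀ n c : ℕ, a < c → 2 * Z.dim < c + n → π c * e = 0 := by
    intro n
    induction n with
    | zero =>
      intro c _ hc
      have h1 : π c = 0 := hπ.out c (by omega)
      rw [h1, zero_mul]
    | succ n ih =>
      intro c hac hc
      by_cases hcN : 2 * Z.dim < c
      · have h1 : π c = 0 := hπ.out c hcN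
        rw [h1, zero_mul]
      · apply zero_of_mul_left (hn _ (h0 c (by omega)))
        have h1 : π c * e = ∑ d ∈ Finset.range (2 * Z.dim + 1), π c * e * π d * (π d * e) := by
          have h2 : ∀ d ∈ Finset.range (2 * Z.dim + 1), π c * e * π d * (π d * e) =
              π c * e * π d * e := by
            intro d _
            rw [← mul_assoc, mul_assoc (π c * e) (π d) (π d), ck_idem hπ]
          rw [Finset.sum_congr rfl h2, ← Finset.sum_mul, ← Finset.mul_sum, hπ.sum_eq, mul_one,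
            mul_assoc, hee]
        rw [Finset.sum_eq_single c] at h1
        · exact h1
        · intro d _ hd
          rcases lt_or_gt_of_ne hd with h2 | h2
          · rw [hNR e he d c h2, zero_mul]
          · rw [ih d (by omega) (by omega), mul_zero]
        · intro h2
          exact absurd (Finset.mem_range.2 (by omega)) h2
  intro c hc
  exact main (2 * Z.dim + 1) c hc (by omega)

lemma right_zero (hn : ∀ γ : Cor C Z, HT H γ → IsNilpotent γ) {π : ℕ → Cor C Z}
    (hπ : IsCK H Z π) (hNR : NR π π) {e : Cor C Z} (he : e ∈ cor0 C Z) (hee : e * e = e) {a : ℕ}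
    (h0 : ∀ c, c ≠ a → HT H (π c * e * π c)) : ∀ c, c < a → e * π c = 0 := by
  intro c
  induction c using Nat.strong_induction_on with
  | _ c ih =>
    intro hca
    by_cases hcN : 2 * Z.dim < c
    · have h1 : π c = 0 := hπ.out c hcN
      rw [h1, mul_zero]
    · apply zero_of_mul_right (hn _ (h0 c (by omega)))
      have h1 : e * π c = ∑ d ∈ Finset.range (2 * Z.dim + 1), e * π d * (π d * e * π c) := by
        have h2 : ∀ d ∈ Finset.range (2 * Z.dim + 1), e * π d * (π d * e * π c) =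
            e * π d * (e * π c) := by
          intro d _
          rw [mul_assoc (π d), ← mul_assoc (e * π d), mul_assoc e (π d) (π d), ck_idem hπ]
        rw [Finset.sum_congr rfl h2, ← Finset.sum_mul, ← Finset.mul_sum, hπ.sum_eq, mul_one,
          ← mul_assoc, hee]
      rw [Finset.sum_eq_single c] at h1
      · exact h1
      · intro d _ hd
        rcases lt_or_gt_of_ne hd with h2 | h2
        · rw [ih d h2 (by omega), zero_mul]
        · rw [hNR e he c d h2, mul_zero]
      · intro h2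
        exact absurd (Finset.mem_range.2 (by omega)) h2

lemma pair_zero (hα : C.Deg X.dim α) (hβ : C.Deg Z.dim β) (hfac : (C.comp α β) = dg C X)
    (hn : ∀ γ : Cor C Z, HT H γ → IsNilpotent γ) {π : ℕ → Cor C Z} (hπ : IsCK H Z π)
    (hNR : NR π π) {P P' : ℕ → Cor C X} (h : IsCK H X P) (h' : IsCK H X P') {γ : Cor C X}
    {a b : ℕ} (hz : ∀ c d : ℕ, b ≤ d → c ≤ a → π d * up α β γ * π c = 0) :
    P' b * γ * P a = 0 := by
  obtain ⟨e, he⟩ : ∃ e : Cor C Z, e = up α β (P a) := ⟨_, rfl⟩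
  obtain ⟨e', he'⟩ : ∃ e' : Cor C Z, e' = up α β (P' b) := ⟨_, rfl⟩
  obtain ⟨g, hg⟩ : ∃ g : Cor C Z, g = up α β γ := ⟨_, rfl⟩
  have hee : e * e = e := by rw [he, ← up_mul hfac, ck_idem h]
  have hee' : e' * e' = e' := by rw [he', ← up_mul hfac, ck_idem h']
  have hem : e ∈ cor0 C Z := by rw [he]; exact up_mem hα hβ (ck_mem h a)
  have hem' : e' ∈ cor0 C Z := by rw [he']; exact up_mem hα hβ (ck_mem h' b)
  have h1 : ∀ c, a < c → π c * e = 0 := left_zero hn hπ hNR hem hee fun c hc => by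
    rw [he]; exact ht_diag hα hβ hπ h hc
  have h2 : ∀ d, d < b → e' * π d = 0 := right_zero hn hπ hNR hem' hee' fun c hc => by
    rw [he']; exact ht_diag hα hβ hπ h' hc
  have h3 : e' * g * e = 0 := by
    have h4 : e' * g * e = ∑ d ∈ Finset.range (2 * Z.dim + 1),
        ∑ c ∈ Finset.range (2 * Z.dim + 1), e' * π d * g * (π c * e) := by
      have h5 : ∀ d ∈ Finset.range (2 * Z.dim + 1), ∑ c ∈ Finset.range (2 * Z.dim + 1),
          e' * π d * g * (π c * e) = e' * π d * (g * e) := by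
        intro d _
        rw [← Finset.mul_sum, ← Finset.sum_mul, hπ.sum_eq, one_mul, mul_assoc]
      rw [Finset.sum_congr rfl h5, ← Finset.sum_mul, ← Finset.mul_sum, hπ.sum_eq, mul_one,
        mul_assoc]
    rw [h4]
    apply Finset.sum_eq_zero
    intro d _
    apply Finset.sum_eq_zero
    intro c _
    by_cases hd : d < b
    · rw [h2 d hd, zero_mul, zero_mul]
    · by_cases hc : a < c
      · rw [h1 c hc, mul_zero]
      · have h6 : e' * π d * g * (π c * e) = e' * (π d * g * π c) * e := by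
          simp only [mul_assoc]
        rw [h6, hg, hz c d (by omega) (by omega), mul_zero, zero_mul]
  have h7 : up α β (P' b * γ * P a) = 0 := by
    rw [up_mul hfac, up_mul hfac, ← he, ← he', ← hg, h3]
  rw [← tr_up hfac (P' b * γ * P a), h7, tr_zero']

theorem NR_of_factor (hα : C.Deg X.dim α) (hβ : C.Deg Z.dim β) (hfac : (C.comp α β) = dg C X)
    (hn : ∀ γ : Cor C Z, HT H γ → IsNilpotent γ) {π : ℕ → Cor C Z} (hπ : IsCK H Z π)
    (hNR : NR π π) {P P' : ℕ → Cor C X} (h : IsCK H X P) (h' : IsCK H X P') : NR P P' := by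
  intro γ hγ a b hab
  refine pair_zero hα hβ hfac hn hπ hNR h h' fun c d hd hc => ?_
  exact hNR _ (up_mem hα hβ hγ) c d (by omega)

theorem SL_of_factor (hα : C.Deg X.dim α) (hβ : C.Deg Z.dim β) (hfac : (C.comp α β) = dg C X)
    {π : ℕ → Cor C Z} (hπ : IsCK H Z π) (hS : SL H π) {P : ℕ → Cor C X} (h : IsCK H X P) :
    SL H P := by
  intro γ hγ a b hab
  refine pair_zero hα hβ hfac (isNilpotent_of_SL hπ hS) hπ (NR_of_SL hπ hS) h h
    fun c d hd hc => ?_
  exact hS _ (HT.up hα hβ hγ) c d (by omega)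

/-- the data of a homologically trivial idempotent -/
structure IsPhantom (H : WeilTheoryData.{u, v, w} C K) (α : C.A (X.prod Z)) (p : ℕ → Cor C X)
    (ε : Cor C X) (b : ℕ → C.A (Z.prod X)) : Prop where
  fac : ∀ i, p i = cr (C.comp α (b i))
  deg : ∀ i, C.Deg Z.dim (b i)
  ht : HT H ε
  idem : ε * ε = ε
  right : ∀ i, p i * ε = 0
  left : ∀ i, ε * p i = 0
  ck : ∀ m ≤ 2 * X.dim, IsCK H X (put m p)
  eq : ∀ m ≤ 2 * X.dim, put m p m = p m + ε
  sum : ε = 1 - ∑ j ∈ Finset.range (2 * X.dim + 1), p j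

lemma exists_phantom' (hF : CohomologyFactor H (fun _ => True) α β) (hZ : HomNilpotent H Z)
    {π : ℕ → C.A (Z.prod Z)} (hπ : IsCK H Z π) : ∃ p ε b, IsPhantom H α p ε b := by
  obtain ⟨p, ε, b, h1, h2, h3, h4, h5, h6, h7, h8, h9⟩ := exists_phantom hF hZ hπ
  exact ⟨p, ε, b, h1, h2, h3, h4, h5, h6, h7, h8, h9⟩

variable {p : ℕ → Cor C X} {ε : Cor C X} {b : ℕ → C.A (Z.prod X)}

lemma IsPhantom.factor (h : IsPhantom H α p ε b) (h0 : ε = 0) : MotiveFactor C α := by
  refine ⟨∑ j ∈ Finset.range (2 * X.dim + 1), b j, ?_, ?_⟩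
  · exact Submodule.sum_mem _ fun j _ => h.deg j
  · rw [comp_sum]
    have h1 := h.sum
    rw [h0] at h1
    have h2 : ∑ j ∈ Finset.range (2 * X.dim + 1), p j = 1 := (sub_eq_zero.1 h1.symm).symm
    rw [Finset.sum_congr rfl fun j _ => h.fac j] at h2
    exact h2

/-- an element of `CH` fixed by `ε` -/
lemma IsPhantom.act_put (h : IsPhantom H α p ε b) {i m : ℕ} (hm : m ≤ 2 * X.dim) (x : C.A X) :
    C.act (uc (put m p i)) (C.act (uc ε) x) = if i = m then C.act (uc ε) x else 0 := by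
  have h1 : put m p i * ε = if i = m then ε else 0 := by
    by_cases hi : i = m
    · subst hi
      rw [if_pos rfl, h.eq i hm, add_mul, h.right, h.idem, zero_add]
    · rw [if_neg hi, put_ne hi, h.right]
  have h2 : C.act (uc (put m p i)) (C.act (uc ε) x) = C.act (uc (put m p i * ε)) x := by
    rw [← C.act_comp]
    rfl
  rw [h2, h1]
  split_ifs
  · rfl
  · exact C.act_zero x

lemma IsPhantom.kills_of_C (h : IsPhantom H α p ε b) (hd : 1 ≤ X.dim) (hX : MurreC H X)
    (i : ℤ) (x : C.A X) (hx : x ∈ C.gr X i) : C.act (uc ε) x = 0 := by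
  by_cases hi : i < 0
  · rw [C.gr_neg X i hi, Submodule.mem_bot] at hx
    rw [hx, C.act_map_zero]
  obtain ⟨j, rfl⟩ := Int.eq_ofNat_of_zero_le (not_lt.1 hi)
  have hy : C.act (uc ε) x ∈ C.gr X (j : ℤ) := act_mem0 C h.ht.1 hx
  have c0 : IsCK H X (fun i => uc (put 0 p i)) := h.ck 0 (by omega)
  have c1 : IsCK H X (fun i => uc (put 1 p i)) := h.ck 1 (by omega)
  have h0 : C.act (uc ε) x ∈ ckFil C (fun i => uc (put 0 p i)) j (2 * j) := by
    rw [c0.mem_ckFil]
    refine ⟨hy, fun m hm => ?_⟩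
    change C.act (uc (put 0 p m)) (C.act (uc ε) x) = 0
    rw [h.act_put (by omega), if_neg (by omega)]
  rw [hX _ _ c0 c1, c1.mem_ckFil] at h0
  have h2 : C.act (uc (put 1 p 1)) (C.act (uc ε) x) = 0 := h0.2 1 (by omega)
  rwa [h.act_put (by omega), if_pos rfl] at h2

lemma IsPhantom.kills_of_D (h : IsPhantom H α p ε b) (hX : MurreD H X)
    (i : ℤ) (x : C.A X) (hx : x ∈ C.gr X i) : C.act (uc ε) x = 0 := by
  by_cases hi : i < 0
  · rw [C.gr_neg X i hi, Submodule.mem_bot] at hx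
    rw [hx, C.act_map_zero]
  obtain ⟨j, rfl⟩ := Int.eq_ofNat_of_zero_le (not_lt.1 hi)
  by_cases hj : X.dim < j
  · have h5 := hC.gr_top X j x hx (by omega)
    rw [h5, C.act_map_zero]
  have hy : C.act (uc ε) x ∈ C.gr X (j : ℤ) := act_mem0 C h.ht.1 hx
  have hcl : H.cl (C.act (uc ε) x) = 0 := by
    rw [cl_act H]
    have h1 : H.cl (X := X.prod X) (uc ε) = 0 := h.ht.2
    rw [h1]
    exact H.act_zero _
  have c0 : IsCK H X (fun i => uc (put (2 * X.dim) p i)) := h.ck _ le_rfl
  have h0 := (hX _ c0 j (C.act (uc ε) x)).2 ⟨hy, hcl⟩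
  rw [c0.mem_ckFil] at h0
  have h2 : C.act (uc (put (2 * X.dim) p (2 * X.dim))) (C.act (uc ε) x) = 0 :=
    h0.2 (2 * X.dim) (by omega)
  rwa [h.act_put le_rfl, if_pos rfl] at h2

lemma IsPhantom.kills_of_B (h : IsPhantom H α p ε b) (hX : MurreB1 H X)
    (i : ℤ) (x : C.A X) (hx : x ∈ C.gr X i) : C.act (uc ε) x = 0 := by
  by_cases hi : i < 0
  · rw [C.gr_neg X i hi, Submodule.mem_bot] at hx
    rw [hx, C.act_map_zero]
  obtain ⟨j, rfl⟩ := Int.eq_ofNat_of_zero_le (not_lt.1 hi)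
  have hy : C.act (uc ε) x ∈ C.gr X (j : ℤ) := act_mem0 C h.ht.1 hx
  rcases Nat.eq_zero_or_pos j with rfl | hj
  · -- `CH^0` is spanned by the fundamental class
    have hcl : H.cl (C.act (uc ε) x) = 0 := by
      rw [cl_act H]
      have h1 : H.cl (X := X.prod X) (uc ε) = 0 := h.ht.2
      rw [h1]
      exact H.act_zero _
    obtain ⟨q, hq⟩ := hC.gr_zero X _ (by exact_mod_cast hy)
    rw [hq] at hcl ⊢
    by_cases hq0 : q = 0
    · rw [hq0, zero_smul]
    · exfalso
      apply hH.one_ne_zero X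
      have h2 : (1 : C.A X) = (q⁻¹ • (1 : C.A X)) * (q • (1 : C.A X)) := by
        rw [smul_mul_smul_comm, inv_mul_cancel₀ hq0, one_smul, one_mul]
      rw [← map_one (H.cl (X := X)), h2, map_mul, hcl, mul_zero]
  · have c0 : IsCK H X (fun i => uc (put 0 p i)) := h.ck 0 (by omega)
    have h2 := (murreB1_iff X).1 hX _ c0 j 0 (C.act (uc ε) x) hy hj
    rwa [h.act_put (by omega), if_pos rfl] at h2

lemma IsPhantom.zero_of_nilpotent (h : IsPhantom H α p ε b) (hn : IsNilpotent ε) : ε = 0 :=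
  zero_of_mul_left hn h.idem.symm

/-- If the decompositions are conjugate the idempotent is zero. -/
lemma IsPhantom.zero_of_conj (h : IsPhantom H α p ε b) (hα : C.Deg X.dim α) (hd : 1 ≤ X.dim)
    (hn : ∀ γ : Cor C Z, HT H γ → IsNilpotent γ)
    (hu : ∃ s t : Cor C X, s ∈ cor0 C X ∧ t ∈ cor0 C X ∧ t * s = 1 ∧
      put 1 p 0 = s * put 0 p 0 * t) : ε = 0 := by
  obtain ⟨s, t, hs, ht, hts, he⟩ := hu
  rw [put_ne (by omega), h.eq 0 (by omega)] at he
  -- `t p_0 s = p_0 + ε`
  have h1 : t * p 0 * s = p 0 + ε := by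
    calc t * p 0 * s = t * (s * (p 0 + ε) * t) * s := by rw [← he]
      _ = (t * s) * (p 0 + ε) * (t * s) := by simp only [mul_assoc]
      _ = _ := by rw [hts, one_mul, mul_one]
  have h2 : ε = ε * t * p 0 * s := by
    calc ε = ε * (p 0 + ε) := by rw [mul_add, h.left, zero_add, h.idem]
      _ = _ := by rw [← h1]; simp only [mul_assoc]
  -- `ε` factors through `Z`
  obtain ⟨u, hu, hε⟩ : ∃ u : C.A (Z.prod X), C.Deg Z.dim u ∧
      ε = cr (C.comp (C.comp (uc s) α) u) := by
    refine ⟨(C.comp (b 0) (uc (ε * t))), comp_mem0 (h.deg 0) ((cor0 C X).mul_mem h.ht.mem ht), ?_⟩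
    have h3 : (cr (C.comp (C.comp (uc s) α) (C.comp (b 0) (uc (ε * t)))) : Cor C X) =
        cr (C.comp (uc s) (C.comp (C.comp α (b 0)) (uc (ε * t)))) := by
      simp only [comp_assoc C]
    have h4 : ε * t * p 0 * s = cr (C.comp (uc s) (C.comp (C.comp α (b 0)) (uc (ε * t)))) := by
      rw [h.fac 0]
      rfl
    exact h2.trans (h4.trans h3.symm)
  obtain ⟨v, hv⟩ : ∃ v : C.A (X.prod Z), v = (C.comp (uc s) α) := ⟨_, rfl⟩
  rw [← hv] at hε
  have hvd : C.Deg X.dim v := by rw [hv]; exact comp_mem0 hs hα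
  -- the correspondence of `Z`
  have h4 : HT H (up v u ε) := HT.up hvd hu h.ht
  obtain ⟨n, hn'⟩ := hn _ h4
  have h5 : ∀ m : ℕ, tr v u ((up v u ε) ^ m) = ε := by
    intro m
    have h7 : (C.comp (uc ε) (uc ε)) = uc ε := h.idem
    have h8 : (C.comp v u) = uc ε := hε.symm
    induction m with
    | zero =>
      have h6 : tr v u ((up v u ε) ^ 0) = cr (C.comp (C.comp v (dg C Z)) u) := by
        rw [pow_zero]; rfl
      rw [h6, comp_dg]
      exact hε.symm
    | succ m ih =>
      have h6 : tr v u ((up v u ε) ^ (m + 1)) =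
          cr (C.comp (C.comp v (C.comp (C.comp (C.comp u (uc ε)) v) (uc ((up v u ε) ^ m)))) u) := by
        rw [pow_succ]; rfl
      have h9 : (C.comp (C.comp v (C.comp (C.comp (C.comp u (uc ε)) v) (uc ((up v u ε) ^ m)))) u) =
          (C.comp (C.comp (C.comp v u) (uc ε)) (C.comp (C.comp v (uc ((up v u ε) ^ m))) u)) := by
        simp only [comp_assoc C]
      have h10 : (C.comp (C.comp v (uc ((up v u ε) ^ m))) u) = uc ε := ih
      rw [h6, h9, h10, h8, h7, h7]
      rfl
  rw [← h5 n, hn', tr_zero']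

end weil

end Pool.Agent.Q73.CR
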